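import Pool.Agent.W498.Dom.Single2

/-!
# The limit of the primitive components
-/

open Finset Polynomial

set_option linter.unusedSectionVars false

namespace Pool.Agent.W498.Dom

open Pool.Agent.H914 Pool.Agent.H447

variable {K : Type*} [Field K] [CharZero K] {V : Type*} [AddCommGroup V] [Module K V]

namespace MapSetup

variable {U : Type*} [AddCommGroup U] [Module K U] {gr P : ℕ → Submodule K V}
    {grU : ℕ → Submodule K U} {n r : ℕ} {h e : Module.End K V} {hU : Module.End K U}
    {φ : U →ₗ[K] V} {ψ : V →ₗ[K] U} {δ : K} (S : Setup gr P (n + r) h e)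
    (M : MapSetup gr P grU n r h e hU φ ψ δ)

include S M

lemma h_pow_phi (c : ℕ) (u : U) : (h ^ c) (φ u) = φ ((hU ^ c) u) := by
  induction c with
  | zero => rfl
  | succ c ih => rw [pow_succ', Module.End.mul_apply, ih, M.hφ, pow_succ', Module.End.mul_apply]

/-- The powers of the limit operator on the image of `φ`. -/
lemma limit_pow (c : ℕ) (u : U) : ((h + top S.iP (n + r) e) ^ c) (φ u) =
    ∑ l ∈ range (c + 1), (Nat.choose c l : K) •
      (top S.iP (n + r) e ^ l) (φ ((hU ^ (c - l)) u)) := by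
  have hcom : Commute (top S.iP (n + r) e) h := S.h_top.symm
  rw [add_comm, hcom.add_pow, LinearMap.sum_apply]
  apply Finset.sum_congr rfl
  intro l _
  rw [Module.End.mul_apply, Module.End.mul_apply, Module.End.natCast_apply,
    ← Nat.cast_smul_eq_nsmul K, map_smul, map_smul, h_pow_phi S M]

/-- **The limit of the primitive components.** -/
theorem core_hodge [Module.Finite K V] (hE : ∀ u, (top S.iP (n + r) e ^ (r + 1)) (φ u) = 0)
    {i : ℕ} (hi : i ≤ n) {x : U} (hprim : (hU ^ (n - i + 1)) x = 0) :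
    ∃ (q : K[X]) (N : K → U), q.eval 0 ≠ 0 ∧ PVec N ∧
      N 0 = (q.eval 0 * (Nat.choose (n + r - i) r : K)) • δ • (hU ^ (n - i)) x ∧
      ∀ s, s ≠ 0 → ∀ b ∈ grZ gr ((i : ℤ) - 2),
        ((h + s ^ 2 • e) ^ (n + r - i + 2)) b = ((h + s ^ 2 • e) ^ (n + r - i + 1)) (φ x) →
        q.eval s • ψ (((h + s ^ 2 • e) ^ (n + r - i)) (φ x) -
          ((h + s ^ 2 • e) ^ (n + r - i + 1)) b) = s ^ (2 * r) • N s := by
  obtain ⟨Λ, Λ', t1, t2, hΛ', t⟩ := S.exists_sl2_both
  set k := n + r - i with hk
  set G := grZ gr ((i : ℤ) - 2) with hG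
  set L : K → Module.End K V := fun s => LL S.iP (n + r) h e s with hL
  have hL0 : L 0 = h + top S.iP (n + r) e := S.LL_zero
  have hLf : PFam L := S.pvec_LL.pfam
  have hprim0 : (L 0 ^ (k + 1)) (φ x) = 0 := by
    rw [hL0, limit_pow S M]
    apply Finset.sum_eq_zero
    intro l hl
    by_cases hlr : l ≤ r
    · rw [show k + 1 - l = (r - l) + (n - i + 1) by omega, pow_add hU, Module.End.mul_apply, hprim,
        map_zero, map_zero, map_zero, smul_zero]
    · obtain ⟨l', rfl⟩ : ∃ l', l = l' + (r + 1) := ⟨l - (r + 1), by omega⟩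
      rw [pow_add (top S.iP (n + r) e), Module.End.mul_apply, hE, map_zero, smul_zero]
  -- the family of linear systems
  set A : K → (G × K) →ₗ[K] (V × K) := fun s =>
    LinearMap.prod ((L s ^ (k + 2)) ∘ₗ G.subtype ∘ₗ LinearMap.fst K G K -
      (LinearMap.toSpanSingleton K V ((L s ^ (k + 1)) (φ x))) ∘ₗ LinearMap.snd K G K)
      (LinearMap.snd K G K) with hA
  have hAa : ∀ s (y : G) (c : K), A s (y, c) =
      ((L s ^ (k + 2)) (y : V) - c • (L s ^ (k + 1)) (φ x), c) := fun s y c => rfl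
  have hAf : PFam A := by
    rintro ⟨y, c⟩
    have h1 : (fun s => A s (y, c)) = fun s => LinearMap.inl K V K
        ((L s ^ (k + 2)) (y : V) - c • (L s ^ (k + 1)) (φ x)) + ((0 : V), c) := by
      funext s
      rw [hAa]
      simp
    rw [h1]
    exact ((((hLf.pow (k + 2)) (y : V)).sub (((hLf.pow (k + 1)) (φ x)).csmul c)).map
      (LinearMap.inl K V K)).add (PVec.const _)
  have hA0 : Function.Injective (A 0) := by
    rw [← LinearMap.ker_eq_bot, LinearMap.ker_eq_bot']
    rintro ⟨y, c⟩ hy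
    rw [hAa] at hy
    have h2 : c = 0 := congrArg Prod.snd hy
    have h1 : (L 0 ^ (k + 2)) (y : V) - c • (L 0 ^ (k + 1)) (φ x) = 0 := congrArg Prod.fst hy
    rw [h2, zero_smul, sub_zero, hL0] at h1
    have h3 : (y : V) = 0 := by
      by_cases hneg : (i : ℤ) - 2 < 0
      · have h4 : (y : V) ∈ grZ gr ((i : ℤ) - 2) := y.2
        rw [grZ_of_neg hneg] at h4
        exact (Submodule.mem_bot _).1 h4
      · obtain ⟨j, hj⟩ := Int.eq_ofNat_of_zero_le (not_lt.1 hneg)
        have h4 : (y : V) ∈ grZ gr ((i : ℤ) - 2) := y.2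
        rw [hj, grZ_natCast] at h4
        apply e_pow_inj t (c := k + 2) _ h1
        rw [wt_apply S.igr (n + r) h4]
        congr 1
        have h5 : k + 2 + j = n + r := by omega
        have h6 : ((k + 2 : ℕ) : K) + j = ((n + r : ℕ) : K) := by rw [← h5]; push_cast; ring
        rw [← h6]; ring
    rw [h2]
    exact Prod.ext (Subtype.ext h3) rfl
  obtain ⟨q, v, hq, hv, hqv⟩ := hAf.solve hA0 ((0 : V), (1 : K))
  set B : K → V := fun s => ((v s).1 : V) with hB
  have hBf : PVec B := hv.map (G.subtype ∘ₗ LinearMap.fst K G K)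
  have hB0 : B 0 = 0 := by
    have h1 := hqv 0 (0, 1) (by rw [hAa, hprim0]; simp)
    rw [hB]
    simp only
    rw [← h1]
    simp
  refine ⟨q, fun s => ψ (q.eval s • (L s ^ k) (φ x) - (L s ^ (k + 1)) (B s)), hq, ?_, ?_, ?_⟩
  · exact ((((hLf.pow k) (φ x)).smul q).sub ((hLf.pow (k + 1)).apply hBf)).map ψ
  · simp only
    rw [hB0, map_zero, sub_zero, map_smul, hL0, limit_pow S M, map_sum, Finset.sum_eq_single r]
    · rw [map_smul, psi_top S M, show k - r = n - i by omega, mul_smul]
    · intro l _ hl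
      rw [map_smul, M.ψP (n + 2 * l) (by omega) _ (by
        rw [top_pow' S.iP S.bP S.eP (M.φP _) l]; exact proj_mem S.iP _ _), smul_zero]
    · intro h'; exact absurd (Finset.mem_range.2 (by omega)) h'
  · intro s hs b hb hbe
    set Lt := h + s ^ 2 • e with hLt
    set D' := scal S.iP (fun p => (s ^ p)⁻¹) with hD'
    set D := scal S.iP (fun p => s ^ p) with hD
    have hbm : D' b ∈ G := by
      by_cases hneg : (i : ℤ) - 2 < 0
      · rw [hG, grZ_of_neg hneg] at hb ⊢
        rw [(Submodule.mem_bot _).1 hb, map_zero]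
        exact Submodule.zero_mem _
      · obtain ⟨j, hj⟩ := Int.eq_ofNat_of_zero_le (not_lt.1 hneg)
        rw [hG, hj, grZ_natCast] at hb ⊢
        exact S.scal_gr _ hb
    have hbmem : s ^ n • D' b ∈ G := G.smul_mem _ hbm
    have hpow : ∀ c, ∀ w, (L s ^ c) (D' w) = D' ((Lt ^ c) w) := by
      intro c w
      rw [hL]
      simp only
      rw [S.LL_pow hs, Module.End.mul_apply, Module.End.mul_apply, ← Module.End.mul_apply D,
        S.scal_inv hs, Module.End.one_apply]
    have hφ : φ x = s ^ n • D' (φ x) := by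
      rw [hD', scal_apply S.iP _ (M.φP x), smul_smul, mul_inv_cancel₀ (pow_ne_zero _ hs), one_smul]
    have hφpow : ∀ c, (L s ^ c) (φ x) = s ^ n • D' ((Lt ^ c) (φ x)) := by
      intro c
      rw [← hpow, ← map_smul, ← hφ]
    have hsol : A s (⟨s ^ n • D' b, hbmem⟩, 1) = ((0 : V), (1 : K)) := by
      rw [hAa, one_smul]
      have h5 : (L s ^ (k + 2)) (s ^ n • D' b) = (L s ^ (k + 1)) (φ x) := by
        rw [map_smul, hpow, hφpow, hbe]
      rw [h5, sub_self]
    have h1 := hqv s _ hsol
    have h2 : B s = q.eval s • s ^ n • D' b := by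
      rw [hB]
      simp only
      rw [← h1]
      rfl
    have h3 : ∀ w, ψ (D' w) = (s ^ (n + 2 * r))⁻¹ • ψ w := by
      intro w
      rw [← psi_proj S M (D' w)]
      have h4 : proj S.iP (n + 2 * r) (D' w) = (s ^ (n + 2 * r))⁻¹ • proj S.iP (n + 2 * r) w := by
        rw [← Module.End.mul_apply, hD', proj, scal_mul, ← LinearMap.smul_apply]
        congr 1
        apply gr_ext S.iP
        intro p' v hv
        rw [scal_apply S.iP _ hv, LinearMap.smul_apply, scal_apply S.iP _ hv]
        by_cases hp : p' = n + 2 * r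
        · subst hp; simp
        · simp [hp]
      rw [h4, map_smul, psi_proj S M]
    have h4 : q.eval s • (L s ^ k) (φ x) - (L s ^ (k + 1)) (q.eval s • s ^ n • D' b) =
        q.eval s • s ^ n • D' ((Lt ^ k) (φ x) - (Lt ^ (k + 1)) b) := by
      rw [hφpow, map_smul, map_smul, hpow, map_sub, smul_sub, smul_sub]
    simp only
    rw [h2, h4, map_smul, map_smul, h3, smul_smul, smul_smul, smul_smul]
    congr 1
    have h5 : s ^ (n + 2 * r) ≠ 0 := pow_ne_zero _ hs
    field_simp
    ring

end MapSetup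

end Pool.Agent.W498.Dom
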