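import Pool.Agent.W498.Dom.Defs
import Pool.Agent.H914R2.DDefs

/-!
# The standard conjecture of Hodge type and dominant morphisms: definitions
-/

open CategoryTheory AlgebraicGeometry

universe u v

namespace Pool.Agent.W498.Hdg

open Pool.Agent.H914 VarClass Obj WeilCohomology

/-- The property `P` holds for all sufficiently small positive rational numbers. -/
def ForSmall (P : ℚ → Prop) : Prop := ∃ t₀ : ℚ, 0 < t₀ ∧ ∀ t : ℚ, 0 < t → t < t₀ → P t

variable {k : Type u} [Field k] {𝒱 : VarClass k} {ops : CycleOps 𝒱}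

/-- The divisor `f^* D + t E`. -/
noncomputable def pencil (ops : CycleOps 𝒱) {Y X : 𝒱.Obj} (f : Y ⟶ X) (D : X.Cycles)
    (E : Y.Cycles) (t : ℚ) : Y.Cycles :=
  ops.pull f D + t • E

/-- The standard conjecture of Hodge type for `X` and the divisor `D` in codimension `j`: if
`2 j ≤ n = dim X`, then for every cycle `z` of codimension `j` whose class is primitive and not
zero, the sign of the intersection number `z · z · D ^ (n - 2 j)` is `(-1) ^ j`. -/
def HodgeTypeIn (W : WeilCohomology.{u, v} ops) (X : 𝒱.Obj) (D : X.Cycles) (j : ℕ) : Prop :=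
  2 * j ≤ X.dim → ∀ z, X.IsCyc j z → W.cl X (divPow ops D (X.dim - 2 * j + 1) z) = 0 →
    W.cl X z ≠ 0 → 0 < (-1 : ℚ) ^ j * X.V.degCycle (ops.mul z (divPow ops D (X.dim - 2 * j) z))

/-- The negative index of the form `(-1) ^ j z · w · D ^ (n - 2 j)` on the primitive algebraic
classes of codimension `j`, `2 j ≤ n = dim X`, is at most `N`: any `N + 1` cycles of codimension `j`
with primitive classes have a nontrivial linear combination `w` over `ℚ` with
`(-1) ^ j w · w · D ^ (n - 2 j) ≥ 0`. -/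
def NegIndexLE (W : WeilCohomology.{u, v} ops) (X : 𝒱.Obj) (D : X.Cycles) (j N : ℕ) : Prop :=
  2 * j ≤ X.dim → ∀ z : Fin (N + 1) → X.Cycles, (∀ i, X.IsCyc j (z i)) →
    (∀ i, W.cl X (divPow ops D (X.dim - 2 * j + 1) (z i)) = 0) →
    ∃ a : Fin (N + 1) → ℚ, a ≠ 0 ∧
      0 ≤ (-1 : ℚ) ^ j * X.V.degCycle
        (ops.mul (∑ i, a i • z i) (divPow ops D (X.dim - 2 * j) (∑ i, a i • z i)))

end Pool.Agent.W498.Hdg
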