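import Pool.Agent.W498.Hdg.Index

/-!
# The standard conjecture of Hodge type descends along dominant morphisms
-/

open CategoryTheory AlgebraicGeometry Finset Polynomial Filter Topology

set_option linter.unusedSectionVars false

universe u v

namespace Pool.Agent.W498.Hdg

open Pool.Agent.H914 Pool.Agent.H447 VarClass Obj WeilCohomology Pool.Agent.W498.Dom

variable {k : Type u} [Field k] {𝒱 : VarClass k} {ops : CycleOps 𝒱}
  {W : WeilCohomology.{u, v} ops} {Y X : 𝒱.Obj} {f : Y ⟶ X} {D : X.Cycles} {E : Y.Cycles}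

/-- The degree of `E ^ r` on the fibres is rational and positive. -/
theorem exists_delta_pos (Q : PerverseDecomposition W f D E) (hD : X.IsCyc 1 D)
    (hE : Y.IsCyc 1 E) (hHL : HardLefschetz W X D)
    (hdeg : 0 < X.V.degCycle (divPow ops D X.dim X.V.fundCycle)) (hf : IsDominant ops f)
    (hA : ForSmall fun t => LefschetzA W Y (pencil ops f D E t))
    (hpos : ForSmall fun t =>
      0 < Y.V.degCycle (divPow ops (pencil ops f D E t) Y.dim Y.V.fundCycle))
    (h1 : (1 : W.H X) ≠ 0) {r : ℕ} (hr : Y.dim = X.dim + r) :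
    ∃ δ : ℚ, 0 < δ ∧ ∀ u : W.H X, W.push f ((eop W Y E ^ r) (W.map f u)) = (δ : W.K) • u := by
  obtain ⟨δ, hδ, hδ'⟩ := exists_delta Q hD hE hHL hf h1 hr
  set d := X.V.degCycle (divPow ops D X.dim X.V.fundCycle) with hd
  have hcycX := divPow_mem (ops := ops) hD X.dim X.V.fundCycle_mem
  rw [zero_add] at hcycX
  have e0 : (d : W.K) = W.tr X (W.cl X (divPow ops D X.dim X.V.fundCycle)) := by
    rw [hd, W.tr_cl hcycX]
  have hcycY := divPow_mem (ops := ops) hE r (ops.pull_mem f hcycX)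
  rw [← hr] at hcycY
  set e1 := Y.V.degCycle (divPow ops E r (ops.pull f (divPow ops D X.dim X.V.fundCycle))) with he1
  have hd0 : (d : W.K) ≠ 0 := by exact_mod_cast hdeg.ne'
  have e2 : (e1 : W.K) = δ * d := by
    rw [he1, ← W.tr_cl hcycY, cl_divPow, W.cl_pull]
    have h2 := W.tr_push f ((eop W Y E ^ r) (W.map f (W.cl X (divPow ops D X.dim X.V.fundCycle)))) 1
    rw [map_one, mul_one, mul_one, hδ', map_smul, smul_eq_mul, ← e0] at h2
    exact h2.symm
  have e3 : δ = ((e1 / d : ℚ) : W.K) := by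
    push_cast
    rw [e2]
    field_simp
  have hδ0 : ((e1 / d : ℚ) : W.K) ≠ 0 := by rw [← e3]; exact hδ
  have hδ1 : ∀ u : W.H X, W.push f ((eop W Y E ^ r) (W.map f u)) = ((e1 / d : ℚ) : W.K) • u := by
    rw [← e3]; exact hδ'
  refine ⟨e1 / d, ?_, hδ1⟩
  have hsmall : ForSmall (fun t => HodgeTypeIn W Y (pencil ops f D E t) 0) := by
    obtain ⟨t₀, ht₀, ht⟩ := hpos
    exact ⟨t₀, ht₀, fun t h2 h3 => hodge_zero (pencil_mem hD hE t) (ht t h2 h3)⟩
  have h2 := semidefinite Q hD hE hHL hf hA h1 hr hδ0 hδ1 (j := 0) (by omega) hsmall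
    X.V.fundCycle_mem (by
      have h3 := W.cl_mem (divPow_mem (ops := ops) hD (X.dim - 2 * 0 + 1) X.V.fundCycle_mem)
      rw [W.gr_eq_bot X _ (by omega)] at h3
      exact (Submodule.mem_bot _).1 h3)
  have e4 : X.V.degCycle (ops.mul X.V.fundCycle (divPow ops D (X.dim - 2 * 0)
      X.V.fundCycle)) = d := by
    have h3 := deg_form (W := W) hD (j := 0) (by omega) X.V.fundCycle_mem X.V.fundCycle_mem
    rw [W.cl_fund, one_mul, ← W.cl_fund, ← cl_divPow, show X.dim - 2 * 0 = X.dim by omega,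
      ← e0] at h3
    exact_mod_cast h3
  rw [e4, pow_zero, one_mul] at h2
  have h3 : e1 / d ≠ 0 := by exact_mod_cast hδ0
  have h4 : 0 ≤ e1 / d := nonneg_of_mul_nonneg_left h2 hdeg
  exact lt_of_le_of_ne h4 h3.symm

lemma ForSmall.exists {P : ℚ → Prop} (h : ForSmall P) : ∃ t : ℚ, 0 < t ∧ P t := by
  obtain ⟨t₀, h0, h⟩ := h
  exact ⟨t₀ / 2, by positivity, h _ (by positivity) (by linarith)⟩

/-- **The standard conjecture of Hodge type descends along dominant morphisms.** -/
theorem hodge_of_dominant (Q : PerverseDecomposition W f D E) (hD : X.IsCyc 1 D)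
    (hE : Y.IsCyc 1 E) (hHL : HardLefschetz W X D)
    (hdeg : 0 < X.V.degCycle (divPow ops D X.dim X.V.fundCycle)) (hf : IsDominant ops f)
    (hA : ForSmall fun t => LefschetzA W Y (pencil ops f D E t))
    (hpos : ForSmall fun t =>
      0 < Y.V.degCycle (divPow ops (pencil ops f D E t) Y.dim Y.V.fundCycle)) :
    (∀ j N, (ForSmall fun t => NegIndexLE W Y (pencil ops f D E t) j N) →
        NegIndexLE W X D j N) ∧
      (HomEqNum W Y → HomEqNum W X ∧
        ∀ j, (ForSmall fun t => HodgeTypeIn W Y (pencil ops f D E t) j) →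
          HodgeTypeIn W X D j) ∧
      ((ForSmall fun t => HodgeType W Y (pencil ops f D E t)) →
        HomEqNum W X ∧ HodgeType W X D) := by
  -- the two first parts
  have part1 : ∀ j N, (ForSmall fun t => NegIndexLE W Y (pencil ops f D E t) j N) →
      NegIndexLE W X D j N := by
    intro j N h
    by_cases h1 : (1 : W.H X) = 0
    · intro hj z hz _
      have hzero : ∀ a : W.H X, a = 0 := fun a => by rw [← mul_one a, h1, mul_zero]
      refine ⟨fun _ => 1, fun h2 => one_ne_zero (congrFun h2 0), ?_⟩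
      have h3 := deg_form (W := W) hD hj (sum_mem_cyc hz (fun _ => 1)) (sum_mem_cyc hz (fun _ => 1))
      rw [hzero (W.cl X _), zero_mul, map_zero] at h3
      have h4 : X.V.degCycle (ops.mul (∑ i, (fun _ => (1 : ℚ)) i • z i)
          (divPow ops D (X.dim - 2 * j) (∑ i, (fun _ => (1 : ℚ)) i • z i))) = 0 := by
        exact_mod_cast h3
      rw [h4, mul_zero]
    obtain ⟨r, hr⟩ : ∃ r, Y.dim = X.dim + r := ⟨Y.dim - X.dim, by
      have := dim_le Q hD hE hHL hf h1; omega⟩
    obtain ⟨δ, hδ, hδ'⟩ := exists_delta_pos Q hD hE hHL hdeg hf hA hpos h1 hr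
    exact index_le Q hD hE hHL hf hA h1 hr hδ hδ' h
  have part2 : HomEqNum W Y → HomEqNum W X ∧
      ∀ j, (ForSmall fun t => HodgeTypeIn W Y (pencil ops f D E t) j) →
        HodgeTypeIn W X D j := by
    intro hY
    have hX : HomEqNum W X := by
      obtain ⟨p, w, hw, hpush⟩ := hf
      exact hY.image ⟨f, p, w, 1, hw, one_ne_zero, by
        rw [← W.cl_push, hpush, W.cl_fund, one_smul]⟩
    refine ⟨hX, fun j h => ?_⟩
    by_cases h1 : (1 : W.H X) = 0
    · intro _ z _ _ hne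
      exact absurd (by rw [← mul_one (W.cl X z), h1, mul_zero]) hne
    obtain ⟨r, hr⟩ : ∃ r, Y.dim = X.dim + r := ⟨Y.dim - X.dim, by
      have := dim_le Q hD hE hHL hf h1; omega⟩
    obtain ⟨δ, hδ, hδ'⟩ := exists_delta_pos Q hD hE hHL hdeg hf hA hpos h1 hr
    have hδ0 : (δ : W.K) ≠ 0 := by exact_mod_cast hδ.ne'
    apply strict hD hHL hX
    intro hj z hz hprim
    have h2 := semidefinite Q hD hE hHL hf hA h1 hr hδ0 hδ' hj h hz hprim
    have h3 : (-1 : ℚ) ^ j * (δ * X.V.degCycle (ops.mul z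
        (divPow ops D (X.dim - 2 * j) z))) = δ * ((-1 : ℚ) ^ j *
        X.V.degCycle (ops.mul z (divPow ops D (X.dim - 2 * j) z))) := by ring
    rw [h3] at h2
    exact nonneg_of_mul_nonneg_right h2 hδ
  refine ⟨part1, part2, fun h => ?_⟩
  -- the third part
  have hY : HomEqNum W Y := by
    obtain ⟨s, h2, h3, h4⟩ := (h.eventually.and
      (hA.eventually.and (eventually_hardLef Q hD hE))).exists
    exact homEqNum_of_hodge (pencil_mem hD hE _) h4 h3 h2
  obtain ⟨hX, hj⟩ := part2 hY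
  refine ⟨hX, fun j hj' => ?_⟩
  obtain ⟨t₀, ht₀, ht⟩ := h
  exact hj j ⟨t₀, ht₀, fun t h2 h3 hjY => ht t h2 h3 j hjY⟩ hj'

end Pool.Agent.W498.Hdg
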