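import Mathlib

/-!
# Negative definite forms over the rational numbers
-/

open Filter Topology

namespace Pool.Agent.W498.Hdg

/-- Near a negative diagonal matrix all matrices are negative definite. -/
lemma eventually_neg {ι : Type*} [Fintype ι] [DecidableEq ι] {F : Filter ℚ}
    {H : ι → ι → ℚ → ℚ} {c : ι → ℚ} (hc : ∀ i, 0 < c i)
    (hH : ∀ i l, Tendsto (H i l) F (𝓝 (if i = l then -c i else 0))) :
    ∀ᶠ s in F, ∀ a : ι → ℚ, a ≠ 0 → ∑ i, ∑ l, a i * a l * H i l s < 0 := by
  rcases isEmpty_or_nonempty ι with hι | hι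
  · exact Eventually.of_forall fun s a ha => absurd (Subsingleton.elim a 0) ha
  obtain ⟨i₀, -, hi₀⟩ := Finset.exists_min_image Finset.univ c Finset.univ_nonempty
  set c₀ := c i₀ with hc₀
  have hcp : 0 < c₀ := hc i₀
  set M : ℚ := (Fintype.card ι : ℚ) with hM
  have hMp : 0 ≤ M := by positivity
  set η : ℚ := c₀ / (M + 1) with hη
  have hηp : 0 < η := by positivity
  have hηM : η * M < c₀ := by
    rw [hη, div_mul_eq_mul_div, div_lt_iff₀ (by positivity)]
    nlinarith
  have h1 : ∀ i l, ∀ᶠ s in F, |H i l s - (if i = l then -c i else 0)| < η := by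
    intro i l
    have := (Metric.tendsto_nhds.1 (hH i l)) η (by exact_mod_cast hηp)
    filter_upwards [this] with s hs
    rw [Rat.dist_eq] at hs
    exact_mod_cast hs
  have h2 : ∀ᶠ s in F, ∀ i l, |H i l s - (if i = l then -c i else 0)| < η := by
    rw [eventually_all]
    intro i
    rw [eventually_all]
    exact h1 i
  filter_upwards [h2] with s hs a ha
  have e1 : ∀ i l, a i * a l * H i l s ≤
      (if i = l then -(c₀ * a i ^ 2) else 0) + η * ((a i ^ 2 + a l ^ 2) / 2) := by
    intro i l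
    have h3 := hs i l
    rw [abs_lt] at h3
    by_cases hil : i = l
    · subst hil
      simp only [if_true] at h3 ⊢
      have h4 : c₀ ≤ c i := hi₀ i (Finset.mem_univ i)
      nlinarith [sq_nonneg (a i)]
    · simp only [if_neg hil, sub_zero] at h3 ⊢
      have h4 : |a i * a l * H i l s| ≤ (a i ^ 2 + a l ^ 2) / 2 * η := by
        rw [abs_mul]
        apply mul_le_mul
        · rw [abs_mul]
          nlinarith [sq_nonneg (|a i| - |a l|), sq_abs (a i), sq_abs (a l)]
        · exact abs_le.2 ⟨h3.1.le, h3.2.le⟩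
        · exact abs_nonneg _
        · positivity
      have h5 := le_abs_self (a i * a l * H i l s)
      linarith
  have e2 : ∑ i, ∑ l, ((if i = l then -(c₀ * a i ^ 2) else 0) + η * ((a i ^ 2 + a l ^ 2) / 2)) =
      -(c₀ - η * M) * ∑ i, a i ^ 2 := by
    simp only [Finset.sum_add_distrib, Finset.sum_ite_eq, Finset.mem_univ, if_true,
      ← Finset.mul_sum, ← Finset.sum_div, Finset.sum_const, Finset.card_univ, nsmul_eq_mul,
      Finset.sum_neg_distrib, ← hM]
    ring
  have e3 : 0 < ∑ i, a i ^ 2 := by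
    obtain ⟨i, hi⟩ := Function.ne_iff.1 ha
    exact Finset.sum_pos' (fun i _ => sq_nonneg _) ⟨i, Finset.mem_univ i, by
      have : a i ≠ 0 := hi
      positivity⟩
  calc ∑ i, ∑ l, a i * a l * H i l s
      ≤ ∑ i, ∑ l, ((if i = l then -(c₀ * a i ^ 2) else 0) + η * ((a i ^ 2 + a l ^ 2) / 2)) :=
        Finset.sum_le_sum fun i _ => Finset.sum_le_sum fun l _ => e1 i l
    _ = -(c₀ - η * M) * ∑ i, a i ^ 2 := e2
    _ < 0 := by nlinarith

/-- Diagonalisation of symmetric matrices over `ℚ`. -/
lemma exists_ortho (N : ℕ) (g : Fin N → Fin N → ℚ) (hg : ∀ i l, g i l = g l i) :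
    ∃ v : Fin N → Fin N → ℚ, (∀ i, v i ≠ 0) ∧
      ∀ i l, i ≠ l → ∑ p, ∑ q, v i p * v l q * g p q = 0 := by
  set B : LinearMap.BilinForm ℚ (Fin N → ℚ) := Matrix.toBilin' (Matrix.of g) with hB
  have hBa : ∀ a b, B a b = ∑ p, ∑ q, a p * b q * g p q := by
    intro a b
    rw [hB, Matrix.toBilin'_apply]
    apply Finset.sum_congr rfl
    intro p _
    apply Finset.sum_congr rfl
    intro q _
    rw [Matrix.of_apply]
    ring
  have hBs : LinearMap.IsSymm B := by
    constructor
    intro a b
    simp only [RingHom.id_apply]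
    rw [hBa, hBa, Finset.sum_comm]
    apply Finset.sum_congr rfl
    intro p _
    apply Finset.sum_congr rfl
    intro q _
    rw [hg q p]
    ring
  obtain ⟨v, hv⟩ := LinearMap.BilinForm.exists_orthogonal_basis hBs
  have hfr : Module.finrank ℚ (Fin N → ℚ) = N := by simp
  refine ⟨fun i => v (finCongr hfr.symm i), fun i => v.ne_zero _, fun i l hil => ?_⟩
  rw [← hBa]
  apply hv
  intro h
  apply hil
  simpa using h

end Pool.Agent.W498.Hdg
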