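import Pool.Agent.W498.Hdg.Main
import Pool.Agent.W498.Hdg.Quad

/-!
# The negative index and dominant morphisms
-/

open CategoryTheory AlgebraicGeometry Finset Polynomial Filter Topology

set_option linter.unusedSectionVars false

universe u v

namespace Pool.Agent.W498.Hdg

open Pool.Agent.H914 Pool.Agent.H447 VarClass Obj WeilCohomology Pool.Agent.W498.Dom

variable {k : Type u} [Field k] {𝒱 : VarClass k} {ops : CycleOps 𝒱}
  {W : WeilCohomology.{u, v} ops} {Y X : 𝒱.Obj} {f : Y ⟶ X} {D : X.Cycles} {E : Y.Cycles}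

lemma sum_mem_cyc {j M : ℕ} {z : Fin M → X.Cycles} (hz : ∀ i, X.IsCyc j (z i)) (a : Fin M → ℚ) :
    X.IsCyc j (∑ i, a i • z i) :=
  Finset.sum_induction _ (fun u => X.IsCyc j u) (fun _ _ => SmVar.IsCyc.add)
    (SmVar.IsCyc.zero _ _) (fun i _ => (hz i).smul _)

lemma cl_sum {M : ℕ} (z : Fin M → X.Cycles) (a : Fin M → ℚ) :
    W.cl X (∑ i, a i • z i) = ∑ i, (a i : W.K) • W.cl X (z i) := by
  rw [map_sum]
  exact Finset.sum_congr rfl (fun i _ => cl_smul W _ _)

/-- The form on a linear combination. -/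
lemma form_sum {L : X.Cycles} (hL : X.IsCyc 1 L) {j : ℕ} (hj : 2 * j ≤ X.dim) {M : ℕ}
    {z : Fin M → X.Cycles} (hz : ∀ i, X.IsCyc j (z i)) (a b : Fin M → ℚ) (W : WeilCohomology.{u, v} ops) :
    X.V.degCycle (ops.mul (∑ i, a i • z i) (divPow ops L (X.dim - 2 * j) (∑ i, b i • z i))) =
      ∑ i, ∑ l, a i * b l * X.V.degCycle (ops.mul (z i) (divPow ops L (X.dim - 2 * j) (z l))) := by
  have h1 := deg_form (W := W) hL hj (sum_mem_cyc hz a) (sum_mem_cyc hz b)
  have h2 : W.tr X (W.cl X (∑ i, a i • z i) *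
      (LinearMap.mulLeft W.K (W.cl X L) ^ (X.dim - 2 * j)) (W.cl X (∑ i, b i • z i))) =
      ((∑ i, ∑ l, a i * b l * X.V.degCycle (ops.mul (z i)
        (divPow ops L (X.dim - 2 * j) (z l))) : ℚ) : W.K) := by
    rw [cl_sum, cl_sum, map_sum, Finset.sum_mul, map_sum]
    push_cast
    apply Finset.sum_congr rfl
    intro i _
    rw [Finset.mul_sum, map_sum]
    apply Finset.sum_congr rfl
    intro l _
    rw [smul_mul_assoc, map_smul, map_smul, mul_smul_comm, map_smul, ← deg_form hL hj (hz i) (hz l),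
      smul_eq_mul, smul_eq_mul]
    ring
  rw [h2] at h1
  exact_mod_cast h1

lemma form_symm {L : X.Cycles} (hL : X.IsCyc 1 L) {j : ℕ} (hj : 2 * j ≤ X.dim) {z w : X.Cycles}
    (hz : X.IsCyc j z) (hw : X.IsCyc j w) (W : WeilCohomology.{u, v} ops) :
    X.V.degCycle (ops.mul z (divPow ops L (X.dim - 2 * j) w)) =
      X.V.degCycle (ops.mul w (divPow ops L (X.dim - 2 * j) z)) := by
  have h1 := deg_form (W := W) hL hj hz hw
  have h2 := deg_form (W := W) hL hj hw hz
  rw [tr_self hL, ← W.even_comm (W.cl_mem hz), ← h1] at h2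
  exact_mod_cast h2.symm

/-- **The negative index does not increase.** -/
theorem index_le (Q : PerverseDecomposition W f D E) (hD : X.IsCyc 1 D)
    (hE : Y.IsCyc 1 E) (hHL : HardLefschetz W X D) (hf : IsDominant ops f)
    (hA : ForSmall (fun t => LefschetzA W Y (pencil ops f D E t))) (h1 : (1 : W.H X) ≠ 0)
    {r : ℕ} (hr : Y.dim = X.dim + r) {δ : ℚ} (hδ : 0 < δ)
    (hδ' : ∀ u : W.H X, W.push f ((eop W Y E ^ r) (W.map f u)) = (δ : W.K) • u) {j N : ℕ}
    (h : ForSmall (fun t => NegIndexLE W Y (pencil ops f D E t) j N)) :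
    NegIndexLE W X D j N := by
  intro hj z hz hprim
  by_contra hcon
  push Not at hcon
  set ε : ℚ := (-1 : ℚ) ^ j with hε
  have hδ0 : (δ : W.K) ≠ 0 := by exact_mod_cast hδ.ne'
  -- orthogonal vectors
  obtain ⟨v, hv0, hv⟩ := exists_ortho (N + 1)
    (fun i l => X.V.degCycle (ops.mul (z i) (divPow ops D (X.dim - 2 * j) (z l))))
    (fun i l => form_symm hD hj (hz i) (hz l) W)
  set w : Fin (N + 1) → X.Cycles := fun i => ∑ p, v i p • z p with hw
  have hwc : ∀ i, X.IsCyc j (w i) := fun i => sum_mem_cyc hz _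
  have hwp : ∀ i, W.cl X (divPow ops D (X.dim - 2 * j + 1) (w i)) = 0 := by
    intro i
    rw [cl_divPow, hw]
    simp only
    rw [cl_sum, map_sum]
    apply Finset.sum_eq_zero
    intro p _
    rw [map_smul, ← cl_divPow, hprim p, smul_zero]
  have hwo : ∀ i l, i ≠ l →
      X.V.degCycle (ops.mul (w i) (divPow ops D (X.dim - 2 * j) (w l))) = 0 := by
    intro i l hil
    rw [hw]
    simp only
    rw [form_sum hD hj hz _ _ W]
    exact hv i l hil
  have hwn : ∀ i, ε * X.V.degCycle (ops.mul (w i) (divPow ops D (X.dim - 2 * j) (w i))) < 0 :=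
    fun i => hcon (v i) (hv0 i)
  -- the families
  have hfam := fun i => family Q hD hE hHL hf h1 hr hδ0 hδ' hj (hwc i) (hwp i)
  choose q Nf hq hNf hN0 hfam using hfam
  have hpol : ∀ i l, ∃ p : W.K[X], ∀ s, W.tr X (W.cl X (w i) * Nf l s) = p.eval s := fun i l =>
    hNf l (W.tr X ∘ₗ LinearMap.mulLeft W.K (W.cl X (w i)))
  choose pN hpN using hpol
  obtain ⟨ρ, hρ⟩ := exists_retract W.K
  have hq' := fun l => exists_ratPoly ρ (C ((q l).eval 0)⁻¹ * q l)
  choose q' hq' using hq'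
  have hp' := fun i l => exists_ratPoly ρ (C ((q l).eval 0)⁻¹ * pN i l)
  choose p' hp' using hp'
  set ch : ℚ := (Nat.choose (X.dim + r - 2 * j) r : ℚ) with hch
  have hchp : 0 < ch := by
    rw [hch]
    exact_mod_cast Nat.choose_pos (by omega)
  have hq0 : ∀ l, (q' l).eval 0 = 1 := by
    intro l
    rw [hq', eval_mul, eval_C, Rat.cast_zero, inv_mul_cancel₀ (hq l), hρ]
  have hp0 : ∀ i l, (p' i l).eval 0 = ch * (δ *
      X.V.degCycle (ops.mul (w i) (divPow ops D (X.dim - 2 * j) (w l)))) := by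
    intro i l
    rw [hp', eval_mul, eval_C, Rat.cast_zero, ← hpN, hN0, mul_smul_comm, mul_smul_comm, map_smul,
      map_smul, ← deg_form hD hj (hwc i) (hwc l), smul_eq_mul, smul_eq_mul]
    have h2 : ((q l).eval 0)⁻¹ * ((q l).eval 0 * (Nat.choose (X.dim + r - 2 * j) r : W.K) *
        ((δ : W.K) * (X.V.degCycle (ops.mul (w i) (divPow ops D (X.dim - 2 * j) (w l))) : W.K))) =
        ((ch * (δ * X.V.degCycle (ops.mul (w i) (divPow ops D (X.dim - 2 * j) (w l)))) : ℚ) :
          W.K) := by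
      rw [hch]
      push_cast
      have h3 := hq l
      field_simp
    rw [h2, ret_ratCast hρ]
  -- the limits of the entries
  have hlim : ∀ i l, Tendsto (fun s : ℚ => ε * ((p' i l).eval s / (q' l).eval s)) (𝓝[>] 0)
      (𝓝 (if i = l then -(-(ch * δ) * (ε *
        X.V.degCycle (ops.mul (w i) (divPow ops D (X.dim - 2 * j) (w i))))) else 0)) := by
    intro i l
    have h2 : Tendsto (fun s : ℚ => ε * ((p' i l).eval s / (q' l).eval s)) (𝓝[>] 0)
        (𝓝 (ε * ((p' i l).eval 0 / (q' l).eval 0))) := by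
      apply Tendsto.mono_left _ nhdsWithin_le_nhds
      apply Tendsto.const_mul
      apply Tendsto.div ((p' i l).continuous.tendsto 0) ((q' l).continuous.tendsto 0)
      rw [hq0]
      exact one_ne_zero
    rw [hq0, hp0, div_one] at h2
    by_cases hil : i = l
    · subst hil
      rw [if_pos rfl]
      convert h2 using 2
      ring
    · rw [if_neg hil]
      rw [hwo i l hil, mul_zero, mul_zero, mul_zero] at h2
      exact h2
  have hneg := eventually_neg (c := fun i => -(ch * δ) * (ε *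
        X.V.degCycle (ops.mul (w i) (divPow ops D (X.dim - 2 * j) (w i))))) (fun i => by
      have h2 := hwn i
      have h3 : 0 < ch * δ := mul_pos hchp hδ
      nlinarith) hlim
  have hqne : ∀ᶠ s : ℚ in 𝓝[>] 0, ∀ l, (q' l).eval s ≠ 0 := by
    rw [eventually_all]
    intro l
    apply mem_nhdsWithin_of_mem_nhds
    have h0 := (q' l).continuous.tendsto 0
    rw [hq0] at h0
    exact h0.eventually_ne one_ne_zero
  obtain ⟨s, hs1, hs2, hs3, hs4, hs5⟩ :=
    (h.eventually.and (hA.eventually.and (hneg.and (hqne.and self_mem_nhdsWithin)))).exists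
  have hs5' : (0 : ℚ) < s := hs5
  have hLm : Y.IsCyc 1 (pencil ops f D E (s ^ 2)) := pencil_mem hD hE _
  have hjY : 2 * j ≤ Y.dim := by omega
  have hζ := fun i => hfam i s hs5' hs2
  choose ζ b hζ1 hζ2 hζ3 hζ4 using hζ
  obtain ⟨a, ha, ha'⟩ := hs1 hjY ζ hζ1 (fun i => by rw [cl_divPow]; exact hζ3 i)
  rw [form_sum hLm hjY hζ1 _ _ W] at ha'
  have hG : ∀ i l, Y.V.degCycle (ops.mul (ζ i) (divPow ops (pencil ops f D E (s ^ 2))
      (Y.dim - 2 * j) (ζ l))) = s ^ (2 * r) * ((p' i l).eval s / (q' l).eval s) := by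
    intro i l
    have h2 := deg_form (W := W) hLm hjY (hζ1 i) (hζ1 l)
    rw [form_eq hLm (hζ2 i) (hζ3 l)] at h2
    have h3 := congrArg (fun u => W.tr X (W.cl X (w i) * u)) (hζ4 l)
    simp only [mul_smul_comm, map_smul, smul_eq_mul] at h3
    rw [← h2, hpN] at h3
    have h4 : (q' l).eval s * Y.V.degCycle (ops.mul (ζ i) (divPow ops
        (pencil ops f D E (s ^ 2)) (Y.dim - 2 * j) (ζ l))) = s ^ (2 * r) * (p' i l).eval s := by
      rw [hq', hp', eval_mul, eval_mul, eval_C, ← ret_mul]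
      have h5 : ((q l).eval 0)⁻¹ * (q l).eval (s : W.K) * ((Y.V.degCycle (ops.mul (ζ i)
          (divPow ops (pencil ops f D E (s ^ 2)) (Y.dim - 2 * j) (ζ l))) : ℚ) : W.K) =
          ((q l).eval 0)⁻¹ * (pN i l).eval (s : W.K) * ((s ^ (2 * r) : ℚ) : W.K) := by
        rw [mul_assoc, h3]
        push_cast
        ring
      rw [h5, ret_mul, mul_comm]
    have h5 := hs4 l
    field_simp
    linear_combination h4
  have h6 : ε * ∑ i, ∑ l, a i * a l * Y.V.degCycle (ops.mul (ζ i) (divPow ops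
      (pencil ops f D E (s ^ 2)) (Y.dim - 2 * j) (ζ l))) = s ^ (2 * r) *
      ∑ i, ∑ l, a i * a l * (ε * ((p' i l).eval s / (q' l).eval s)) := by
    rw [Finset.mul_sum, Finset.mul_sum]
    apply Finset.sum_congr rfl
    intro i _
    rw [Finset.mul_sum, Finset.mul_sum]
    apply Finset.sum_congr rfl
    intro l _
    rw [hG]
    ring
  rw [h6] at ha'
  have h7 := hs3 a ha
  have h8 : (0 : ℚ) < s ^ (2 * r) := pow_pos hs5' _
  exact absurd ha' (not_le.2 (mul_neg_of_pos_of_neg h8 h7))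

end Pool.Agent.W498.Hdg
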