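import Pool.Agent.H914R2.KDesc

/-!
# The sign of the constant term of a polynomial over a field of characteristic zero
-/

open Polynomial Filter Topology

namespace Pool.Agent.W498.Hdg

open Pool.Agent.H914

variable {K : Type*} [Field K] [CharZero K]

/-- Applying a `ℚ`-linear functional to the coefficients. -/
lemma exists_ratPoly (ρ : K →ₗ[ℚ] ℚ) (p : K[X]) :
    ∃ p' : ℚ[X], ∀ s : ℚ, p'.eval s = ρ (p.eval (s : K)) := by
  refine ⟨∑ i ∈ p.support, C (ρ (p.coeff i)) * X ^ i, fun s => ?_⟩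
  rw [eval_finsetSum, eval_eq_sum, Polynomial.sum, map_sum]
  apply Finset.sum_congr rfl
  intro i _
  rw [eval_mul, eval_C, eval_pow, eval_X, ← Rat.cast_pow, ret_mul]

/-- **The limit argument.** -/
lemma limit_nonneg {q N : K[X]} (hq : q.eval 0 ≠ 0) (c : ℚ) (hN : N.eval 0 = q.eval 0 * (c : K))
    (r : ℕ) (hpos : ∀ᶠ s : ℚ in 𝓝[>] 0, ∃ Q : ℚ, 0 ≤ Q ∧
      q.eval (s : K) * (Q : K) = (s : K) ^ r * N.eval (s : K)) : 0 ≤ c := by
  obtain ⟨ρ, hρ⟩ := exists_retract K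
  -- normalise
  set u : K := (q.eval 0)⁻¹ with hu
  have huq : u * q.eval 0 = 1 := inv_mul_cancel₀ hq
  obtain ⟨q', hq'⟩ := exists_ratPoly ρ (C u * q)
  obtain ⟨N', hN'⟩ := exists_ratPoly ρ (C u * N)
  have hq0 : q'.eval 0 = 1 := by
    rw [hq', eval_mul, eval_C, Rat.cast_zero, huq, hρ]
  have hN0 : N'.eval 0 = c := by
    rw [hN', eval_mul, eval_C, Rat.cast_zero, hN, ← mul_assoc, huq, one_mul, ret_ratCast hρ]
  by_contra hc
  push Not at hc
  have e1 : ∀ᶠ s : ℚ in 𝓝[>] 0, 0 < q'.eval s := by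
    apply mem_nhdsWithin_of_mem_nhds
    have h0 := q'.continuous.tendsto 0
    rw [hq0] at h0
    exact h0.eventually (Ioi_mem_nhds one_pos)
  have e2 : ∀ᶠ s : ℚ in 𝓝[>] 0, N'.eval s < 0 := by
    apply mem_nhdsWithin_of_mem_nhds
    have h0 := N'.continuous.tendsto 0
    rw [hN0] at h0
    exact h0.eventually (Iio_mem_nhds hc)
  have e3 : ∀ᶠ s : ℚ in 𝓝[>] 0, 0 < s := self_mem_nhdsWithin
  obtain ⟨s, h1, h2, h3, Q, hQ, hQ'⟩ := (e1.and (e2.and (e3.and hpos))).exists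
  have h4 : q'.eval s * Q = s ^ r * N'.eval s := by
    rw [hq', hN', eval_mul, eval_mul, eval_C]
    have h5 : u * q.eval (s : K) * (Q : K) = u * N.eval (s : K) * ((s ^ r : ℚ) : K) := by
      rw [mul_assoc, hQ']
      push_cast
      ring
    rw [← ret_mul, h5, ret_mul, mul_comm]
  have h6 : 0 ≤ q'.eval s * Q := mul_nonneg h1.le hQ
  have h7 : s ^ r * N'.eval s < 0 := mul_neg_of_pos_of_neg (pow_pos h3 r) h2
  rw [h4] at h6
  exact absurd h6 (not_le.2 h7)

/-- Nonzero polynomials have no small positive rational roots. -/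
lemma eventually_ne {p : K[X]} (hp : p ≠ 0) : ∀ᶠ s : ℚ in 𝓝[>] 0, p.eval (s : K) ≠ 0 := by
  classical
  have hfin : {s : ℚ | p.eval (s : K) = 0}.Finite := by
    apply Set.Finite.of_finite_image (f := fun s : ℚ => (s : K))
    · apply (p.roots.toFinset.finite_toSet).subset
      rintro _ ⟨s, hs, rfl⟩
      simp only [Finset.mem_coe, Multiset.mem_toFinset]
      exact (mem_roots hp).2 hs
    · exact Rat.cast_injective.injOn
  have h1 : ∀ᶠ s : ℚ in 𝓝[≠] 0, p.eval (s : K) ≠ 0 :=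
    (nhdsNE_le_cofinite 0) (hfin.eventually_cofinite_notMem)
  exact h1.filter_mono (nhdsWithin_mono 0 (fun x hx => ne_of_gt hx))

end Pool.Agent.W498.Hdg
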