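import Pool.Agent.W498.Hdg.Core
import Pool.Agent.W498.Hdg.Limit
import Pool.Agent.W498.Hdg.Defs
import Pool.Agent.W498.Dom.Ranks
import Pool.Agent.H281R3.HT.Mid

/-!
# The standard conjecture of Hodge type and dominant morphisms
-/

open CategoryTheory AlgebraicGeometry Finset Polynomial Filter Topology

set_option linter.unusedSectionVars false

universe u v

namespace Pool.Agent.W498.Hdg

open Pool.Agent.H914 Pool.Agent.H447 VarClass Obj WeilCohomology Pool.Agent.W498.Dom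

variable {k : Type u} [Field k] {𝒱 : VarClass k} {ops : CycleOps 𝒱}
  {W : WeilCohomology.{u, v} ops} {Y X : 𝒱.Obj} {f : Y ⟶ X} {D : X.Cycles} {E : Y.Cycles}

lemma pencil_mem (hD : X.IsCyc 1 D) (hE : Y.IsCyc 1 E) (t : ℚ) :
    Y.IsCyc 1 (pencil ops f D E t) := (ops.pull_mem f hD).add (hE.smul t)

lemma mulLeft_pencil (t : ℚ) : LinearMap.mulLeft W.K (W.cl Y (pencil ops f D E t)) =
    hop W f D + (t : W.K) • eop W Y E := by
  apply LinearMap.ext
  intro x
  rw [pencil, map_add, cl_smul, W.cl_pull, LinearMap.mulLeft_apply, LinearMap.add_apply,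
    LinearMap.smul_apply, LinearMap.mulLeft_apply, LinearMap.mulLeft_apply, add_mul,
    smul_mul_assoc]

lemma cl_prim (L z b : X.Cycles) : W.cl X (z + (-1 : ℚ) • ops.mul L b) =
    W.cl X z - W.cl X L * W.cl X b := by
  rw [map_add, cl_smul, W.cl_mul, Rat.cast_neg, Rat.cast_one, neg_one_smul, sub_eq_add_neg]

/-- Primitive components of algebraic classes. -/
lemma exists_prim {L : X.Cycles} (hL : X.IsCyc 1 L) (hA : LefschetzA W X L) {j : ℕ}
    (hj : 2 * j ≤ X.dim) {z : X.Cycles} (hz : X.IsCyc j z) :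
    ∃ ζ b : X.Cycles, W.cl X b ∈ grZ (W.gr X) (((2 * j : ℕ) : ℤ) - 2) ∧
      X.IsCyc j ζ ∧ W.cl X ζ = W.cl X z - W.cl X L * W.cl X b ∧
      (LinearMap.mulLeft W.K (W.cl X L) ^ (X.dim - 2 * j + 2)) (W.cl X b) =
        (LinearMap.mulLeft W.K (W.cl X L) ^ (X.dim - 2 * j + 1)) (W.cl X z) := by
  rcases Nat.eq_zero_or_pos j with rfl | hj0
  · refine ⟨z, 0, ?_, hz, ?_, ?_⟩
    · rw [map_zero]; exact Submodule.zero_mem _
    · rw [map_zero, mul_zero, sub_zero]
    · rw [map_zero, map_zero]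
      have h1 := pow_L_mem (mulLeft_isHom (W := W) hL) (W.cl_mem hz) (X.dim - 2 * 0 + 1)
      rw [W.gr_eq_bot X _ (by omega)] at h1
      exact ((Submodule.mem_bot _).1 h1).symm
  · have h1 := divPow_mem (ops := ops) hL (X.dim - 2 * j + 1) hz
    rw [show j + (X.dim - 2 * j + 1) = X.dim - (j - 1) by omega] at h1
    obtain ⟨b, hb, hb'⟩ := hA (j - 1) (by omega) _ h1
    refine ⟨z + (-1 : ℚ) • ops.mul L b, b, ?_, ?_, cl_prim L z b, ?_⟩
    · rw [show (((2 * j : ℕ) : ℤ) - 2) = ((2 * (j - 1) : ℕ) : ℤ) by omega, grZ_natCast]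
      exact W.cl_mem hb
    · apply hz.add
      apply SmVar.IsCyc.smul
      have := ops.mul_mem hL hb
      rwa [show 1 + (j - 1) = j by omega] at this
    · rw [cl_divPow, cl_divPow, show X.dim - 2 * (j - 1) = X.dim - 2 * j + 2 by omega] at hb'
      exact hb'

lemma tr_self {L : X.Cycles} (hL : X.IsCyc 1 L) (c : ℕ) (a b : W.H X) :
    W.tr X (a * (LinearMap.mulLeft W.K (W.cl X L) ^ c) b) =
      W.tr X ((LinearMap.mulLeft W.K (W.cl X L) ^ c) a * b) := by
  induction c generalizing a with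
  | zero => rfl
  | succ c ih =>
    rw [pow_succ', Module.End.mul_apply, LinearMap.mulLeft_apply, ← mul_assoc,
      ← W.even_comm (W.cl_mem hL) a, ih]
    rw [← LinearMap.mulLeft_apply (R := W.K) (W.cl X L) a, ← Module.End.mul_apply, ← pow_succ,
      pow_succ']

/-- The form on cycles. -/
lemma deg_form {L : X.Cycles} (hL : X.IsCyc 1 L) {j : ℕ} (hj : 2 * j ≤ X.dim) {z w : X.Cycles}
    (hz : X.IsCyc j z) (hw : X.IsCyc j w) :
    (X.V.degCycle (ops.mul z (divPow ops L (X.dim - 2 * j) w)) : W.K) =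
      W.tr X (W.cl X z * (LinearMap.mulLeft W.K (W.cl X L) ^ (X.dim - 2 * j)) (W.cl X w)) := by
  rw [← cl_divPow, tr_mul_cl hz (divPow_mem hL _ hw) (by omega)]

/-- For small `t` the class `f^* D + t E` has the strong Lefschetz property. -/
lemma eventually_hardLef (Q : PerverseDecomposition W f D E) (hD : X.IsCyc 1 D)
    (hE : Y.IsCyc 1 E) : ∀ᶠ s : ℚ in 𝓝[>] 0, HardLefschetz W Y (pencil ops f D E (s ^ 2)) := by
  have S := setup Q hD hE rfl
  obtain ⟨p, hp, hp'⟩ := S.exists_poly_hardLef (by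
    intro c hc
    have := betti_symm (X := Y) W (i := Y.dim - c) (by omega)
    rw [show 2 * Y.dim - (Y.dim - c) = Y.dim + c by omega] at this
    exact this.symm)
  have e3 : ∀ᶠ s : ℚ in 𝓝[>] 0, 0 < s := self_mem_nhdsWithin
  filter_upwards [eventually_ne hp, e3] with s h1 h2
  rw [HardLefschetz, mulLeft_pencil]
  push_cast
  exact hp' _ (by exact_mod_cast h2.ne') h1

lemma ForSmall.eventually {P : ℚ → Prop} (h : ForSmall P) :
    ∀ᶠ s : ℚ in 𝓝[>] 0, P (s ^ 2) := by
  obtain ⟨t₀, ht, h⟩ := h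
  have e3 : ∀ᶠ s : ℚ in 𝓝[>] 0, 0 < s := self_mem_nhdsWithin
  have e1 : ∀ᶠ s : ℚ in 𝓝[>] 0, s ^ 2 < t₀ := by
    apply mem_nhdsWithin_of_mem_nhds
    have h0 := (continuous_pow 2 (M := ℚ)).tendsto 0
    rw [zero_pow two_ne_zero] at h0
    exact h0.eventually (Iio_mem_nhds ht)
  filter_upwards [e1, e3] with s h1 h2
  exact h _ (pow_pos h2 2) h1

/-- Primitive classes on `Y` close to the inverse images of primitive classes on `X`. -/
theorem family (Q : PerverseDecomposition W f D E) (hD : X.IsCyc 1 D)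
    (hE : Y.IsCyc 1 E) (hHL : HardLefschetz W X D) (hf : IsDominant ops f)
    (h1 : (1 : W.H X) ≠ 0) {r : ℕ} (hr : Y.dim = X.dim + r) {δ : ℚ}
    (hδ : (δ : W.K) ≠ 0)
    (hδ' : ∀ u : W.H X, W.push f ((eop W Y E ^ r) (W.map f u)) = (δ : W.K) • u) {j : ℕ}
    (hj : 2 * j ≤ X.dim) {z : X.Cycles} (hz : X.IsCyc j z)
    (hprim : W.cl X (divPow ops D (X.dim - 2 * j + 1) z) = 0) :
    ∃ (q : W.K[X]) (N : W.K → W.H X), q.eval 0 ≠ 0 ∧ PVec N ∧
      N 0 = (q.eval 0 * (Nat.choose (X.dim + r - 2 * j) r : W.K)) • (δ : W.K) •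
        (LinearMap.mulLeft W.K (W.cl X D) ^ (X.dim - 2 * j)) (W.cl X z) ∧
      ∀ s : ℚ, 0 < s → LefschetzA W Y (pencil ops f D E (s ^ 2)) →
        ∃ (ζ : Y.Cycles) (b : W.H Y), Y.IsCyc j ζ ∧
          W.cl Y ζ = W.map f (W.cl X z) - W.cl Y (pencil ops f D E (s ^ 2)) * b ∧
          (LinearMap.mulLeft W.K (W.cl Y (pencil ops f D E (s ^ 2))) ^ (Y.dim - 2 * j + 1))
            (W.cl Y ζ) = 0 ∧
          q.eval (s : W.K) • W.push f ((LinearMap.mulLeft W.K
            (W.cl Y (pencil ops f D E (s ^ 2))) ^ (Y.dim - 2 * j)) (W.cl Y ζ)) =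
              (s : W.K) ^ (2 * r) • N s := by
  have S := setup Q hD hE hr
  have M : MapSetup (W.gr Y) Q.piece (W.gr X) X.dim r (hop W f D) (eop W Y E)
      (LinearMap.mulLeft W.K (W.cl X D)) (W.map f).toLinearMap (W.push f) (δ : W.K) :=
    { iU := W.isInternal X
      bU := fun i hi => W.gr_eq_bot X i (by omega)
      hUgr := isHom_mulLeft W hD
      hlU := hHL
      φP := map_piece Q hD hE hHL hf h1
      φgr := fun i u hu => W.map_mem f hu
      hφ := fun u => by simp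
      ψP := fun p hp v hv => push_piece Q hD hE hHL hf h1 hr hp hv
      ψφ := hδ'
      δ0 := hδ }
  set x := W.cl X z with hx
  rw [cl_divPow] at hprim
  obtain ⟨q, N, hq, hN, hN0, hcore⟩ := M.core_hodge S
    (fun u => top_vanish Q hD hE hHL hf h1 hr u) hj hprim
  refine ⟨q, N, hq, hN, hN0, fun s hs3 hA => ?_⟩
  set Lt := pencil ops f D E (s ^ 2) with hLt
  have hLm : Y.IsCyc 1 Lt := pencil_mem hD hE _
  have hzY : Y.IsCyc j (ops.pull f z) := ops.pull_mem f hz
  have hjY : 2 * j ≤ Y.dim := by omega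
  obtain ⟨ζ, b, hb1, hb2, hζ, hb3⟩ := exists_prim hLm hA hjY hzY
  set Lo := LinearMap.mulLeft W.K (W.cl Y Lt) with hLo
  have hLo' : Lo = hop W f D + (s : W.K) ^ 2 • eop W Y E := by
    rw [hLo, hLt, mulLeft_pencil]
    push_cast
    rfl
  have hclζ : W.cl Y ζ = W.map f x - Lo (W.cl Y b) := by
    rw [hζ, W.cl_pull]; rfl
  set kk := Y.dim - 2 * j with hkk
  have hkk' : kk = X.dim + r - 2 * j := by omega
  have hw' : (Lo ^ kk) (W.cl Y ζ) = (Lo ^ kk) (W.map f x) - (Lo ^ (kk + 1)) (W.cl Y b) := by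
    rw [hclζ, map_sub, pow_succ, Module.End.mul_apply]
  have hprimζ : (Lo ^ (kk + 1)) (W.cl Y ζ) = 0 := by
    rw [hclζ, map_sub, ← Module.End.mul_apply (Lo ^ (kk + 1)), ← pow_succ, hb3, W.cl_pull,
      sub_self]
  refine ⟨ζ, W.cl Y b, hb2, hclζ, hprimζ, ?_⟩
  have h5 := hcore (s : W.K) (by exact_mod_cast (ne_of_gt hs3)) (W.cl Y b) hb1 (by
    rw [← hkk', ← hLo', hb3, W.cl_pull]; rfl)
  rw [← hkk', ← hLo'] at h5
  rw [hw']
  exact h5

/-- The form on `Y` in terms of `X`. -/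
lemma form_eq {L : Y.Cycles} (hL : Y.IsCyc 1 L) {c : ℕ} {x : W.H X} {b a v : W.H Y}
    (ha : a = W.map f x - W.cl Y L * b)
    (hv : (LinearMap.mulLeft W.K (W.cl Y L) ^ (c + 1)) v = 0) :
    W.tr Y (a * (LinearMap.mulLeft W.K (W.cl Y L) ^ c) v) =
      W.tr X (x * W.push f ((LinearMap.mulLeft W.K (W.cl Y L) ^ c) v)) := by
  rw [Pool.Agent.W534.tr_mul_push, ha, sub_mul, map_sub]
  have h3 := tr_self (W := W) hL 1 b ((LinearMap.mulLeft W.K (W.cl Y L) ^ c) v)
  rw [pow_one, LinearMap.mulLeft_apply, LinearMap.mulLeft_apply,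
    ← LinearMap.mulLeft_apply (R := W.K) (W.cl Y L), ← Module.End.mul_apply, ← pow_succ', hv,
    mul_zero, map_zero] at h3
  rw [← h3, sub_zero]

/-- **The limit of the Hodge-Riemann relations.** -/
theorem semidefinite (Q : PerverseDecomposition W f D E) (hD : X.IsCyc 1 D)
    (hE : Y.IsCyc 1 E) (hHL : HardLefschetz W X D) (hf : IsDominant ops f)
    (hA : ForSmall (fun t => LefschetzA W Y (pencil ops f D E t))) (h1 : (1 : W.H X) ≠ 0)
    {r : ℕ} (hr : Y.dim = X.dim + r) {δ : ℚ} (hδ : (δ : W.K) ≠ 0)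
    (hδ' : ∀ u : W.H X, W.push f ((eop W Y E ^ r) (W.map f u)) = (δ : W.K) • u) {j : ℕ}
    (hj : 2 * j ≤ X.dim) (h : ForSmall (fun t => HodgeTypeIn W Y (pencil ops f D E t) j))
    {z : X.Cycles} (hz : X.IsCyc j z) (hprim : W.cl X (divPow ops D (X.dim - 2 * j + 1) z) = 0) :
    0 ≤ (-1 : ℚ) ^ j * (δ * X.V.degCycle (ops.mul z (divPow ops D (X.dim - 2 * j) z))) := by
  obtain ⟨q, N, hq, hN, hN0, hfam⟩ := family Q hD hE hHL hf h1 hr hδ hδ' hj hz hprim
  set x := W.cl X z with hx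
  set l : W.H X →ₗ[W.K] W.K := W.tr X ∘ₗ LinearMap.mulLeft W.K x with hl
  have hla : ∀ u, l u = W.tr X (x * u) := fun u => rfl
  obtain ⟨pN, hpN⟩ := hN l
  have hch : (0 : ℚ) < (Nat.choose (X.dim + r - 2 * j) r : ℚ) := by
    exact_mod_cast Nat.choose_pos (by omega)
  set c : ℚ := (-1 : ℚ) ^ j * ((Nat.choose (X.dim + r - 2 * j) r : ℚ) *
    (δ * X.V.degCycle (ops.mul z (divPow ops D (X.dim - 2 * j) z)))) with hc
  have key : 0 ≤ c := by
    apply limit_nonneg (K := W.K) (q := q) (N := C ((-1 : W.K) ^ j) * pN) hq c _ (2 * r)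
    · filter_upwards [h.eventually, hA.eventually, self_mem_nhdsWithin]
        with s hs1 hs2 hs3
      obtain ⟨ζ, b, hb2, hclζ, hprimζ, hq'⟩ := hfam s hs3 hs2
      have hLm : Y.IsCyc 1 (pencil ops f D E (s ^ 2)) := pencil_mem hD hE _
      have hjY : 2 * j ≤ Y.dim := by omega
      have hdeg : (Y.V.degCycle (ops.mul ζ (divPow ops (pencil ops f D E (s ^ 2))
          (Y.dim - 2 * j) ζ)) : W.K) = W.tr X (x * W.push f ((LinearMap.mulLeft W.K
            (W.cl Y (pencil ops f D E (s ^ 2))) ^ (Y.dim - 2 * j)) (W.cl Y ζ))) := by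
        rw [deg_form hLm hjY hb2 hb2, form_eq hLm hclζ hprimζ]
      refine ⟨(-1 : ℚ) ^ j * Y.V.degCycle (ops.mul ζ (divPow ops (pencil ops f D E (s ^ 2))
          (Y.dim - 2 * j) ζ)), ?_, ?_⟩
      · by_cases hζ0 : W.cl Y ζ = 0
        · have h3 : Y.V.degCycle (ops.mul ζ (divPow ops (pencil ops f D E (s ^ 2))
              (Y.dim - 2 * j) ζ)) = 0 := by
            have h4 := deg_form (W := W) hLm hjY hb2 hb2
            rw [hζ0, zero_mul, map_zero] at h4
            exact_mod_cast h4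
          rw [h3, mul_zero]
        · exact (hs1 hjY ζ hb2 (by rw [cl_divPow]; exact hprimζ) hζ0).le
      · have h6 := congrArg l hq'
        rw [map_smul, map_smul, hpN, hla, smul_eq_mul, smul_eq_mul, ← hdeg] at h6
        rw [eval_mul, eval_C]
        push_cast
        linear_combination ((-1 : W.K) ^ j) * h6
    · rw [eval_mul, eval_C, ← hpN, hN0, map_smul, map_smul, hla, ← deg_form hD hj hz hz, hc,
        smul_eq_mul, smul_eq_mul]
      push_cast
      ring
  have h8 : c = (Nat.choose (X.dim + r - 2 * j) r : ℚ) * ((-1 : ℚ) ^ j *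
    (δ * X.V.degCycle (ops.mul z (divPow ops D (X.dim - 2 * j) z)))) := by rw [hc]; ring
  rw [h8] at key
  exact nonneg_of_mul_nonneg_right key hch

/-- Cauchy-Schwarz. -/
lemma eq_zero_of_quad {b c : ℚ} (hc : 0 ≤ c) (h : ∀ t : ℚ, 0 ≤ 2 * t * b + t ^ 2 * c) : b = 0 := by
  by_contra hb
  have h1 := h (-b / (c + 1))
  have hc1 : (0 : ℚ) < c + 1 := by linarith
  have h2 : 2 * (-b / (c + 1)) * b + (-b / (c + 1)) ^ 2 * c =
      -(b ^ 2 * (c + 2) / (c + 1) ^ 2) := by
    field_simp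
    ring
  rw [h2] at h1
  have h3 : 0 < b ^ 2 * (c + 2) / (c + 1) ^ 2 := by positivity
  linarith

/-- Strict positivity from semidefiniteness and the conjecture D. -/
theorem strict (hD : X.IsCyc 1 D) (hHL : HardLefschetz W X D) (hX : HomEqNum W X) {j : ℕ}
    (hsemi : 2 * j ≤ X.dim → ∀ z, X.IsCyc j z →
      W.cl X (divPow ops D (X.dim - 2 * j + 1) z) = 0 →
      0 ≤ (-1 : ℚ) ^ j * X.V.degCycle (ops.mul z (divPow ops D (X.dim - 2 * j) z))) :
    HodgeTypeIn W X D j := by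
  intro hj z hz hprim hne
  have hsemi := hsemi hj
  set kk := X.dim - 2 * j with hkk
  set L := LinearMap.mulLeft W.K (W.cl X D) with hL
  by_contra hnot
  have hzero : (-1 : ℚ) ^ j * X.V.degCycle (ops.mul z (divPow ops D kk z)) = 0 :=
    le_antisymm (not_lt.1 hnot) (hsemi z hz hprim)
  have hone : ((-1 : ℚ) ^ j) ≠ 0 := pow_ne_zero _ (by norm_num)
  have hzero' : X.V.degCycle (ops.mul z (divPow ops D kk z)) = 0 :=
    (mul_eq_zero.1 hzero).resolve_left hone
  have hA : LefschetzA W X D := Pool.Agent.H281R3.HT.lefschetzA_of_D hD hHL hX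
  -- orthogonality to the primitive classes
  have hort : ∀ w, X.IsCyc j w → W.cl X (divPow ops D (kk + 1) w) = 0 →
      W.tr X (W.cl X z * (L ^ kk) (W.cl X w)) = 0 := by
    intro w hw hwp
    have e1 := deg_form (W := W) hD hj hz hw
    have e2 := deg_form (W := W) hD hj hw hw
    have e3 := deg_form (W := W) hD hj hz hz
    rw [← hkk] at e1 e2 e3
    have esym : W.tr X (W.cl X w * (L ^ kk) (W.cl X z)) =
        W.tr X (W.cl X z * (L ^ kk) (W.cl X w)) := by
      rw [hL, tr_self hD, ← W.even_comm (W.cl_mem hz)]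
    set b : ℚ := (-1 : ℚ) ^ j * X.V.degCycle (ops.mul z (divPow ops D kk w)) with hb
    set c : ℚ := (-1 : ℚ) ^ j * X.V.degCycle (ops.mul w (divPow ops D kk w)) with hc
    have hb0 : b = 0 := by
      apply eq_zero_of_quad (c := c) (hsemi w hw hwp)
      intro t
      have hzw : X.IsCyc j (z + t • w) := hz.add (hw.smul t)
      have hcl : W.cl X (z + t • w) = W.cl X z + (t : W.K) • W.cl X w := by
        rw [map_add, cl_smul]
      have h1 := hsemi (z + t • w) hzw (by
        rw [cl_divPow] at hprim hwp ⊢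
        rw [hcl, map_add, map_smul, hprim, hwp, smul_zero, add_zero])
      have e4 := deg_form (W := W) hD hj hzw hzw
      rw [← hkk] at e4
      have e5 : X.V.degCycle (ops.mul (z + t • w) (divPow ops D kk (z + t • w))) =
          2 * t * X.V.degCycle (ops.mul z (divPow ops D kk w)) +
            t ^ 2 * X.V.degCycle (ops.mul w (divPow ops D kk w)) := by
        have : (X.V.degCycle (ops.mul (z + t • w) (divPow ops D kk (z + t • w))) : W.K) =
            ((2 * t * X.V.degCycle (ops.mul z (divPow ops D kk w)) +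
              t ^ 2 * X.V.degCycle (ops.mul w (divPow ops D kk w)) : ℚ) : W.K) := by
          rw [hzero', Rat.cast_zero] at e3
          push_cast
          rw [e4, e1, e2, hcl, map_add, map_smul, add_mul, mul_add, mul_add, smul_mul_assoc,
            smul_mul_assoc, mul_smul_comm, mul_smul_comm, map_add, map_add, map_add, map_smul,
            map_smul, map_smul, map_smul, esym, ← e3]
          simp only [smul_eq_mul]
          ring
        exact_mod_cast this
      have e6 : 2 * t * b + t ^ 2 * c = (-1 : ℚ) ^ j *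
          X.V.degCycle (ops.mul (z + t • w) (divPow ops D kk (z + t • w))) := by
        rw [e5, hb, hc]; ring
      rw [e6]
      exact h1
    have hb1 : X.V.degCycle (ops.mul z (divPow ops D kk w)) = 0 :=
      (mul_eq_zero.1 hb0).resolve_left hone
    rw [← e1, hb1, Rat.cast_zero]
  -- orthogonality to all classes
  have hort' : ∀ w, X.IsCyc j w → W.tr X (W.cl X z * (L ^ kk) (W.cl X w)) = 0 := by
    intro w hw
    obtain ⟨ζ, b, -, hζ, hζ', hb⟩ := exists_prim hD hA hj hw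
    rw [← hkk, ← hL] at hb
    replace hζ' : W.cl X ζ = W.cl X w - L (W.cl X b) := hζ'
    have hζp : (L ^ (kk + 1)) (W.cl X ζ) = 0 := by
      rw [hζ', map_sub, ← Module.End.mul_apply (L ^ (kk + 1)), ← pow_succ, hb, sub_self]
    have h1 := hort ζ hζ (by rw [cl_divPow]; exact hζp)
    rw [hζ', map_sub, mul_sub, map_sub, ← Module.End.mul_apply (L ^ kk), ← pow_succ,
      sub_eq_zero] at h1
    rw [h1, hL, tr_self hD, ← cl_divPow, hprim, zero_mul, map_zero]
  -- conclusion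
  apply hne
  apply (hHL (2 * j) (by omega)).1 _ (W.cl_mem hz)
  rw [← cl_divPow]
  have hcyc := divPow_mem (ops := ops) hD (X.dim - 2 * j) hz
  rw [show j + (X.dim - 2 * j) = X.dim - j by omega] at hcyc
  apply hX (X.dim - j) (by omega) _ hcyc
  intro w hw
  rw [show X.dim - (X.dim - j) = j by omega] at hw
  have h2 := tr_mul_cl (W := W) hcyc hw (by omega)
  rw [cl_divPow, ← tr_self hD, hort' w hw] at h2
  exact_mod_cast h2.symm

/-- The conjecture in codimension zero. -/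
lemma hodge_zero {L : X.Cycles} (hL : X.IsCyc 1 L)
    (hdeg : 0 < X.V.degCycle (divPow ops L X.dim X.V.fundCycle)) : HodgeTypeIn W X L 0 := by
  intro _ z hz _ hne
  have hz0 := W.cl_mem hz
  rw [Nat.mul_zero, W.gr_zero, Submodule.mem_span_singleton] at hz0
  obtain ⟨c, hc⟩ := hz0
  have hc0 : c ≠ 0 := by
    rintro rfl
    exact hne (by rw [← hc, zero_smul])
  set d := X.V.degCycle (divPow ops L X.dim X.V.fundCycle) with hd
  set M := LinearMap.mulLeft W.K (W.cl X L) with hM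
  have e0 : (d : W.K) = W.tr X ((M ^ X.dim) 1) := by
    have h1 := divPow_mem (ops := ops) hL X.dim X.V.fundCycle_mem
    rw [zero_add] at h1
    rw [hd, ← W.tr_cl h1, cl_divPow, W.cl_fund]
  set e1 := X.V.degCycle (ops.mul z (divPow ops L (X.dim - 2 * 0) X.V.fundCycle)) with he1
  have e2 : (e1 : W.K) = c * d := by
    rw [he1, deg_form hL (by omega) hz X.V.fundCycle_mem, W.cl_fund, ← hc, smul_mul_assoc, one_mul,
      map_smul, smul_eq_mul, e0, ← hM]
    simp
  have hd0 : (d : W.K) ≠ 0 := by exact_mod_cast hdeg.ne'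
  have e3 : (X.V.degCycle (ops.mul z (divPow ops L (X.dim - 2 * 0) z)) : W.K) =
      ((e1 ^ 2 / d : ℚ) : W.K) := by
    rw [deg_form hL (by omega) hz hz, ← hc, smul_mul_assoc, one_mul, map_smul, map_smul, map_smul]
    push_cast
    rw [e2, smul_eq_mul, smul_eq_mul]
    rw [show X.dim - 2 * 0 = X.dim by omega, ← hM, ← e0]
    field_simp
  have e4 : X.V.degCycle (ops.mul z (divPow ops L (X.dim - 2 * 0) z)) = e1 ^ 2 / d := by
    exact_mod_cast e3
  rw [e4]
  have he1' : e1 ≠ 0 := by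
    intro h0
    rw [h0, Rat.cast_zero] at e2
    exact (mul_ne_zero hc0 hd0) e2.symm
  positivity

/-- Hodge type and `A` imply `D`. -/
theorem homEqNum_of_hodge (hD : X.IsCyc 1 D) (hHL : HardLefschetz W X D)
    (hA : LefschetzA W X D) (hH : HodgeType W X D) : HomEqNum W X := by
  intro j hj z hz hnum
  by_contra hne
  set n := X.dim with hn
  set L : Module.End W.K (W.H X) := LinearMap.mulLeft W.K (W.cl X D) with hL
  have h := W.isInternal X
  have hbd : ∀ i, 2 * n + 1 ≤ i → W.gr X i = ⊥ := W_hbd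
  have hLh : IsHom (W.gr X) 2 L := mulLeft_isHom hD
  have hC : AlgPart (W.gr X) n L (bil W X) (algClasses W X) := algPart hD hA hH
  have hHL' : HardLef (W.gr X) n L := hHL
  obtain ⟨Lam, t, hLamh, hval⟩ := exists_sl2 h hLh hbd hHL'
  obtain ⟨w, hw1, -, hw3, hw4⟩ := exists_weyl t
  have hlow : ∀ i ≤ n, ∀ a ∈ W.gr X i, (L ^ (n - i + 1)) a = 0 → Lam a = 0 := by
    intro i hi a ha hp
    have := hval i hi a ha hp 0 (by omega)
    simpa using this
  have hHw : ∀ i, ∀ a ∈ W.gr X i, wt h n a = ((i : W.K) - n) • a := by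
    intro i a ha
    rw [wt, scal_apply h _ ha, node]
    push_cast; rfl
  obtain ⟨s, hs1, hs2⟩ := hC.weyl_pos t hw1 hw3 hlow hHw hLh hbd (c := W.cl X z) (l := j)
    ⟨z, hz, rfl⟩ hne
  obtain ⟨w', hw', hw''⟩ := hC.weyl_mem t hw1 hw3 hlow hHw hLh hbd (c := W.cl X z) (l := j) hj
    ⟨z, hz, rfl⟩
  have h2 := tr_mul_cl (W := W) hz hw' (by omega)
  rw [hw'', hnum w' hw', Rat.cast_zero] at h2
  rw [bil_apply, h2] at hs1
  have h3 : s = 0 := by exact_mod_cast hs1.symm
  rw [h3, mul_zero] at hs2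
  exact lt_irrefl _ hs2

end Pool.Agent.W498.Hdg
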